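import Mathlib

set_option autoImplicit false

/-!
# Sets of multiplicative recurrence and the pattern `a, b, a ^ (b + 1)`

`NotRecurrent D`: some finite colouring `χ` has `χ x ≠ χ (x d)` for all `x ≥ 1` and `d ∈ D`.
For a colouring `c` without the pattern a colour `j` is *small* if the set of the `b + 1` with
`c b = j` is not a set of recurrence. The colourings `t ↦ c (x ^ t)` have limits of dilations which
use small colours only.
-/

namespace Pool.Agent.Helper6.REC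

open Filter

/-- `D` is not a set of multiplicative recurrence -/
def NotRecurrent (D : Set ℕ) : Prop :=
  ∃ (r : ℕ) (χ : ℕ → Fin r), ∀ x d : ℕ, 0 < x → d ∈ D → χ x ≠ χ (x * d)

lemma NotRecurrent.mono {D E : Set ℕ} (h : D ⊆ E) (hE : NotRecurrent E) : NotRecurrent D := by
  obtain ⟨r, χ, hχ⟩ := hE
  exact ⟨r, χ, fun x d hx hd => hχ x d hx (h hd)⟩

lemma notRecurrent_of_finite {C : Type} [Finite C] {D : Set ℕ} (χ : ℕ → C)
    (h : ∀ x d : ℕ, 0 < x → d ∈ D → χ x ≠ χ (x * d)) : NotRecurrent D := by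
  obtain ⟨r, ⟨f⟩⟩ := Finite.exists_equiv_fin C
  exact ⟨r, fun x => f (χ x), fun x d hx hd he => h x d hx hd (f.injective he)⟩

lemma NotRecurrent.union {D E : Set ℕ} (hD : NotRecurrent D) (hE : NotRecurrent E) :
    NotRecurrent (D ∪ E) := by
  obtain ⟨r, χ, hχ⟩ := hD
  obtain ⟨r', χ', hχ'⟩ := hE
  refine notRecurrent_of_finite (fun x => (χ x, χ' x)) ?_
  rintro x d hx (hd | hd) he
  · exact hχ x d hx hd (Prod.ext_iff.1 he).1
  · exact hχ' x d hx hd (Prod.ext_iff.1 he).2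

lemma notRecurrent_empty : NotRecurrent ∅ := ⟨1, fun _ => 0, fun _ _ _ h => absurd h (by simp)⟩

lemma NotRecurrent.biUnion {ι : Type} (s : Finset ι) (D : ι → Set ℕ)
    (h : ∀ i ∈ s, NotRecurrent (D i)) : NotRecurrent (⋃ i ∈ s, D i) := by
  classical
  induction s using Finset.induction with
  | empty => simpa using notRecurrent_empty
  | insert x s hx ih =>
    rw [Finset.set_biUnion_insert]
    exact (h x (Finset.mem_insert_self _ _)).union (ih fun i hi => h i (Finset.mem_insert_of_mem hi))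

/-- the set of all `d ≥ 3` is a set of recurrence -/
lemma recurrent_three : ¬ NotRecurrent {d | 3 ≤ d} := by
  rintro ⟨r, χ, hχ⟩
  obtain ⟨i, j, hij, he⟩ : ∃ i j : Fin (r + 1), i ≠ j ∧ χ (3 ^ (i : ℕ)) = χ (3 ^ (j : ℕ)) := by
    by_contra hcon
    push Not at hcon
    have hinj : Function.Injective fun i : Fin (r + 1) => χ (3 ^ (i : ℕ)) := by
      intro i j h
      by_contra hne
      exact hcon i j hne h
    have := Fintype.card_le_of_injective _ hinj
    simp at this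
  have key : ∀ i j : Fin (r + 1), (i : ℕ) < j → χ (3 ^ (i : ℕ)) ≠ χ (3 ^ (j : ℕ)) := by
    intro i j hlt
    have h3 : (3 : ℕ) ^ (j : ℕ) = 3 ^ (i : ℕ) * 3 ^ ((j : ℕ) - i) := by
      rw [← pow_add]; congr 1; omega
    rw [h3]
    refine hχ _ _ (by positivity) ?_
    show 3 ≤ 3 ^ ((j : ℕ) - i)
    calc 3 = 3 ^ 1 := by norm_num
      _ ≤ 3 ^ ((j : ℕ) - i) := Nat.pow_le_pow_right (by norm_num) (by omega)
  rcases lt_trichotomy (i : ℕ) j with h | h | h
  · exact key i j h he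
  · exact hij (Fin.ext h)
  · exact key j i h he.symm

/-- no monochromatic `a, b, a ^ (b + 1)` with `a, b > 1` -/
def Free {r : ℕ} (c : ℕ → Fin r) : Prop :=
  ∀ a b : ℕ, 1 < a → 1 < b → c a = c b → c b ≠ c (a ^ (b + 1))

/-- the set of the `b + 1` with `b > 1` of colour `j` -/
def mult {r : ℕ} (c : ℕ → Fin r) (j : Fin r) : Set ℕ := {d | ∃ b, 1 < b ∧ c b = j ∧ d = b + 1}

/-- the colour `j` is small: the `b + 1` with `b` of colour `j` are not a set of recurrence -/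
def Small {r : ℕ} (c : ℕ → Fin r) (j : Fin r) : Prop := NotRecurrent (mult c j)

/-- the set of the `b + 1` with `b` of a small colour -/
def smallMult {r : ℕ} (c : ℕ → Fin r) : Set ℕ := {d | ∃ b, 1 < b ∧ Small c (c b) ∧ d = b + 1}

lemma notRecurrent_smallMult {r : ℕ} (c : ℕ → Fin r) : NotRecurrent (smallMult c) := by
  classical
  refine (NotRecurrent.biUnion (Finset.univ.filter fun j => Small c j) (mult c) ?_).mono ?_
  · intro i hi
    exact (Finset.mem_filter.1 hi).2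
  · rintro d ⟨b, hb, hs, rfl⟩
    simp only [Set.mem_iUnion, Finset.mem_filter, Finset.mem_univ, true_and]
    exact ⟨c b, hs, b, hb, rfl, rfl⟩

/-- the rule for colourings of the exponents -/
def Good {r : ℕ} (c χ : ℕ → Fin r) : Prop :=
  ∀ t b : ℕ, 0 < t → 1 < b → χ t = c b → χ (t * (b + 1)) ≠ c b

/-- the family `χ'` is a limit of dilations of the family `χ` -/
def Lim {ι : Type} {r : ℕ} (χ χ' : ι → ℕ → Fin r) : Prop :=
  ∀ F : Finset ℕ, ∃ s : ℕ, 0 < s ∧ ∀ i ∈ F, ∀ l, χ' l i = χ l (s * i)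

lemma Lim.refl {ι : Type} {r : ℕ} (χ : ι → ℕ → Fin r) : Lim χ χ :=
  fun _ => ⟨1, one_pos, fun i _ l => by rw [one_mul]⟩

lemma Lim.trans {ι : Type} {r : ℕ} {χ χ' χ'' : ι → ℕ → Fin r} (h : Lim χ χ') (h' : Lim χ' χ'') :
    Lim χ χ'' := by
  classical
  intro F
  obtain ⟨s', hs', h2⟩ := h' F
  obtain ⟨s, hs, h1⟩ := h (F.image fun i => s' * i)
  refine ⟨s * s', Nat.mul_pos hs hs', fun i hi l => ?_⟩
  rw [h2 i hi l, h1 _ (Finset.mem_image_of_mem _ hi) l, mul_assoc]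

lemma Lim.good {ι : Type} {r : ℕ} {c : ℕ → Fin r} {χ χ' : ι → ℕ → Fin r} (h : Lim χ χ')
    (hg : ∀ l, Good c (χ l)) : ∀ l, Good c (χ' l) := by
  intro l t b ht hb h1
  obtain ⟨s, hs, h2⟩ := h {t, t * (b + 1)}
  rw [h2 (t * (b + 1)) (by simp) l, ← mul_assoc]
  apply hg l _ _ (Nat.mul_pos hs ht) hb
  rw [← h2 t (by simp) l]
  exact h1

lemma Lim.avoid {ι : Type} {r : ℕ} {χ χ' : ι → ℕ → Fin r} (h : Lim χ χ') {j : Fin r} {l : ι}
    (hj : ∀ t, 0 < t → χ l t ≠ j) : ∀ t, 0 < t → χ' l t ≠ j := by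
  intro t ht
  obtain ⟨s, hs, h2⟩ := h {t}
  rw [h2 t (by simp) l]
  exact hj _ (Nat.mul_pos hs ht)

/-- limit of a sequence of families of colourings along an ultrafilter -/
lemma exists_limit {κ ι : Type} {r : ℕ} (U : Ultrafilter κ) (f : κ → ι → ℕ → Fin r) :
    ∃ χ : ι → ℕ → Fin r, ∀ l t, ∀ᶠ n in (U : Filter κ), f n l t = χ l t := by
  have h : ∀ (l : ι) (t : ℕ), ∃ j : Fin r, ∀ᶠ n in (U : Filter κ), f n l t = j := by
    intro l t
    obtain ⟨j, hj⟩ := (U.map fun n => f n l t).eq_pure_of_finite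
    refine ⟨j, ?_⟩
    have h1 : {j} ∈ U.map fun n => f n l t := by rw [hj]; exact rfl
    exact h1
  choose χ hχ using h
  exact ⟨χ, hχ⟩

lemma eventually_finset {κ ι : Type} [Finite ι] {r : ℕ} (U : Ultrafilter κ) {f : κ → ι → ℕ → Fin r}
    {χ : ι → ℕ → Fin r} (h : ∀ l t, ∀ᶠ n in (U : Filter κ), f n l t = χ l t) (F : Finset ℕ) :
    ∀ᶠ n in (U : Filter κ), ∀ i ∈ F, ∀ l, f n l i = χ l i := by
  rw [Filter.eventually_all_finset]
  intro i _
  rw [Filter.eventually_all]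
  exact fun l => h l i

/-- one colour which is not small can be avoided by a limit of dilations -/
lemma exists_lim_avoid {ι : Type} [Finite ι] {r : ℕ} {c : ℕ → Fin r} {χ : ι → ℕ → Fin r} {l : ι}
    (hg : Good c (χ l)) {j : Fin r} (hj : ¬ Small c j) :
    ∃ χ' : ι → ℕ → Fin r, Lim χ χ' ∧ ∀ t, 0 < t → χ' l t ≠ j := by
  classical
  -- for each n some dilation avoids j on 1, …, n
  have h1 : ∀ n : ℕ, ∃ s, 0 < s ∧ ∀ i, 0 < i → i ≤ n → χ l (s * i) ≠ j := by
    intro n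
    by_contra hcon
    push Not at hcon
    apply hj
    set g : ℕ → Fin (n + 1) := fun s =>
      if h : ∃ i : Fin (n + 1), 0 < (i : ℕ) ∧ χ l (s * i) = j then h.choose else 0 with hgdef
    have hgs : ∀ s, 0 < s → 0 < (g s : ℕ) ∧ χ l (s * g s) = j := by
      intro s hs
      obtain ⟨i, hi0, hin, hi⟩ := hcon s hs
      have hex : ∃ i : Fin (n + 1), 0 < (i : ℕ) ∧ χ l (s * i) = j := ⟨⟨i, by omega⟩, hi0, hi⟩
      have : g s = hex.choose := by simp only [hgdef, dif_pos hex]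
      rw [this]
      exact hex.choose_spec
    refine ⟨n + 1, g, ?_⟩
    rintro x d hx ⟨b, hb, hbj, rfl⟩ he
    obtain ⟨h2, h3⟩ := hgs x hx
    obtain ⟨h4, h5⟩ := hgs (x * (b + 1)) (Nat.mul_pos hx (by omega))
    rw [← he] at h5
    have h6 : x * (b + 1) * (g x : ℕ) = x * (g x : ℕ) * (b + 1) := by ring
    rw [h6, ← hbj] at h5
    rw [← hbj] at h3
    exact hg _ _ (Nat.mul_pos hx h2) hb h3 h5
  choose s hs0 hs using h1
  obtain ⟨χ', hχ'⟩ := exists_limit (Filter.hyperfilter ℕ) fun n l t => χ l (s n * t)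
  refine ⟨χ', ?_, ?_⟩
  · intro F
    obtain ⟨n, hn⟩ := (eventually_finset _ hχ' F).exists
    exact ⟨s n, hs0 n, fun i hi l => (hn i hi l).symm⟩
  · intro t ht he
    have h2 : ∀ᶠ n in (Filter.hyperfilter ℕ : Filter ℕ), t ≤ n :=
      Nat.hyperfilter_le_atTop (Filter.eventually_ge_atTop t)
    obtain ⟨n, hn1, hn2⟩ := ((hχ' l t).and h2).exists
    exact hs n t ht hn2 (hn1.trans he)

/-- all colours which are not small can be avoided by a limit of dilations -/
lemma exists_lim_small {ι : Type} [Finite ι] {r : ℕ} {c : ℕ → Fin r} {χ : ι → ℕ → Fin r}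
    (hg : ∀ l, Good c (χ l)) :
    ∃ χ' : ι → ℕ → Fin r, Lim χ χ' ∧ (∀ l, Good c (χ' l)) ∧ ∀ l t, 0 < t → Small c (χ' l t) := by
  classical
  have := Fintype.ofFinite ι
  have key : ∀ Q : Finset (ι × Fin r), (∀ q ∈ Q, ¬ Small c q.2) →
      ∃ χ' : ι → ℕ → Fin r, Lim χ χ' ∧ ∀ q ∈ Q, ∀ t, 0 < t → χ' q.1 t ≠ q.2 := by
    intro Q
    induction Q using Finset.induction with
    | empty => exact fun _ => ⟨χ, Lim.refl χ, by simp⟩
    | insert q Q hj ih =>
      intro hQ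
      obtain ⟨χ₁, h1, h2⟩ := ih fun i hi => hQ i (Finset.mem_insert_of_mem hi)
      obtain ⟨χ₂, h3, h4⟩ := exists_lim_avoid (h1.good hg q.1) (hQ q (Finset.mem_insert_self _ _))
      refine ⟨χ₂, h1.trans h3, ?_⟩
      intro i hi
      rcases Finset.mem_insert.1 hi with rfl | hi
      · exact h4
      · exact h3.avoid (h2 i hi)
  obtain ⟨χ', h1, h2⟩ := key (Finset.univ.filter fun q => ¬ Small c q.2)
    (fun j hj => (Finset.mem_filter.1 hj).2)
  refine ⟨χ', h1, h1.good hg, fun l t ht => ?_⟩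
  by_contra hcon
  exact h2 (l, χ' l t) (Finset.mem_filter.2 ⟨Finset.mem_univ _, hcon⟩) t ht rfl

lemma good_pow {r : ℕ} {c : ℕ → Fin r} (hc : Free c) {x : ℕ} (hx : 1 < x) :
    Good c fun t => c (x ^ t) := by
  intro t b ht hb h1 h2
  refine hc (x ^ t) b (Nat.one_lt_pow ht.ne' hx) hb h1 ?_
  rw [← pow_mul]
  exact h2.symm

/-- the uniform statement: boundedly many exponents suffice for all families of `k` bases -/
theorem exists_finset {r : ℕ} {c : ℕ → Fin r} (hc : Free c) (k : ℕ) :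
    ∃ S : Finset ℕ, (∀ s ∈ S, 0 < s) ∧
      ∀ x : Fin k → ℕ, (∀ l, 1 < x l) →
        ∃ s ∈ S, ∀ l, ∀ i, 0 < i → i ≤ k → Small c (c (x l ^ (s * i))) := by
  classical
  by_contra hcon
  push Not at hcon
  have hcon' : ∀ S : Finset ℕ, ∃ x : Fin k → ℕ, (∀ l, 1 < x l) ∧ ∀ s ∈ S, 0 < s →
      ∃ l, ∃ i, 0 < i ∧ i ≤ k ∧ ¬ Small c (c (x l ^ (s * i))) := by
    intro S
    obtain ⟨x, hx, h⟩ := hcon (S.filter fun s => 0 < s) (fun s hs => (Finset.mem_filter.1 hs).2)
    exact ⟨x, hx, fun s hs h0 => h s (Finset.mem_filter.2 ⟨hs, h0⟩)⟩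
  choose x hx hbad using hcon'
  let U : Ultrafilter (Finset ℕ) := Ultrafilter.of Filter.atTop
  have hU : (U : Filter (Finset ℕ)) ≤ Filter.atTop := Ultrafilter.of_le _
  obtain ⟨χ, hχ⟩ := exists_limit U fun S l t => c (x S l ^ t)
  have hgood : ∀ l, Good c (χ l) := by
    intro l t b ht hb h1 h2
    obtain ⟨S, h3, h4⟩ := ((hχ l t).and (hχ l (t * (b + 1)))).exists
    exact good_pow hc (hx S l) t b ht hb (h3.trans h1) (h4.trans h2)
  obtain ⟨χ', hlim, -, hsmall⟩ := exists_lim_small hgood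
  obtain ⟨s, hs, h5⟩ := hlim (Finset.Icc 1 k)
  have h6 : ∀ᶠ S in (U : Filter (Finset ℕ)), ∀ i ∈ (Finset.Icc 1 k).image fun i => s * i,
      ∀ l, c (x S l ^ i) = χ l i := eventually_finset U hχ _
  have h7 : ∀ᶠ S in (U : Filter (Finset ℕ)), s ∈ S := by
    refine hU ?_
    filter_upwards [Filter.eventually_ge_atTop ({s} : Finset ℕ)] with S hS
    exact hS (Finset.mem_singleton_self s)
  obtain ⟨S, h8, h9⟩ := (h6.and h7).exists
  obtain ⟨l, i, hi0, hik, hi⟩ := hbad S s h9 hs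
  apply hi
  rw [h8 (s * i) (Finset.mem_image_of_mem _ (Finset.mem_Icc.2 ⟨hi0, hik⟩)) l,
    ← h5 i (Finset.mem_Icc.2 ⟨hi0, hik⟩) l]
  exact hsmall l i hi0

/-- a colouring of the exponents by small colours -/
theorem exists_good_small {r : ℕ} {c : ℕ → Fin r} (hc : Free c) :
    ∃ χ : ℕ → Fin r, Good c χ ∧ (∀ t, 0 < t → Small c (χ t)) ∧
      ∀ t, 0 < t → ∃ b, 1 < b ∧ c b = χ t := by
  obtain ⟨χ, hlim, hg, hs⟩ := exists_lim_small (ι := Unit) (χ := fun _ t => c (2 ^ t))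
    fun _ => good_pow hc (by norm_num : 1 < 2)
  refine ⟨χ (), hg (), hs (), fun t ht => ?_⟩
  obtain ⟨s, hs0, h1⟩ := hlim {t}
  exact ⟨2 ^ (s * t), Nat.one_lt_pow (Nat.mul_pos hs0 ht).ne' (by norm_num),
    (h1 t (by simp) ()).symm⟩

/-- at least two small colours occur -/
theorem two_small {r : ℕ} {c : ℕ → Fin r} (hc : Free c) :
    ∃ b b' : ℕ, 1 < b ∧ 1 < b' ∧ Small c (c b) ∧ Small c (c b') ∧ c b ≠ c b' := by
  obtain ⟨χ, hg, hs, hex⟩ := exists_good_small hc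
  obtain ⟨b, hb, hbχ⟩ := hex 1 one_pos
  obtain ⟨b', hb', hbχ'⟩ := hex (b + 1) (by omega)
  refine ⟨b, b', hb, hb', ?_, ?_, ?_⟩
  · rw [hbχ]; exact hs 1 one_pos
  · rw [hbχ']; exact hs _ (by omega)
  · rw [hbχ']
    have := hg 1 b one_pos hb hbχ.symm
    rw [one_mul] at this
    exact fun h => this h.symm

/-- not all colours are small -/
theorem exists_not_small {r : ℕ} (c : ℕ → Fin r) : ∃ b, 1 < b ∧ ¬ Small c (c b) := by
  by_contra hcon
  push Not at hcon
  refine recurrent_three ((notRecurrent_smallMult c).mono ?_)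
  intro d hd
  have hd3 : 3 ≤ d := hd
  exact ⟨d - 1, by omega, hcon _ (by omega), by omega⟩

end Pool.Agent.Helper6.REC
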